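import Pool.Agent.R731.HS.ModelCH

/-!
# No semi-parallel real hypersurface in complex space forms of dimension `n ≥ 3`
(MP_e17017_gt, Q1)
-/

set_option autoImplicit false

namespace Pool.Agent.Results.MP_e17017_gt.NoSemiParallel

open Pool.Agent.R731.HS (HypSurf)
open Pool.Agent.R731.HSP Matrix
open scoped ContDiff Topology ComplexOrder Matrix.Norms.Elementwise

attribute [-instance] instTopologicalSpaceMatrix
attribute [-instance] Matrix.instUniformSpace

/-- For every `n ≥ 3` and every `c ≠ 0`: in the complex space form of dimension `n` and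
holomorphic sectional curvature `4c` (chart `Om1 c n`: the ball model of complex hyperbolic space
for `c < 0`, an affine chart of complex projective space for `c > 0`), for every non-empty piece
of real hypersurface `φ : U → Om1 c n` with unit normal `N`, the condition `R · A = 0` fails
somewhere on `U`. -/
theorem result (n : ℕ) (hn : 3 ≤ n) (c : ℝ) (hc : c ≠ 0) :
    IsComplexSpaceForm n c ∧
    ∀ (U : Set (EuclideanSpace ℝ (Fin (2 * n - 1))))
      (φ N : EuclideanSpace ℝ (Fin (2 * n - 1)) → Matrix (Fin n) (Fin 1) ℂ),
      HypSurf (met c) (Om1 c n) U φ N → U.Nonempty →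
        ¬ ∀ x ∈ U, SemiParallelAt (Gam c) (met c) φ N x :=
  ⟨isComplexSpaceForm n c, fun _ _ _ h hne => main_CH hn hc h hne⟩

end Pool.Agent.Results.MP_e17017_gt.NoSemiParallel
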